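import Mathlib
import Pool.Agent.K4H31.Fre4

/-!
# `F_4(X)` is a Fréchet-Urysohn space, and a `k_R`-space, for `X` metrizable with `X'` compact

This answers the question positively, and proves the conjecture of Yamada (2002).
-/

set_option autoImplicit false

namespace Pool.Agent.Results.MP_b47bfe_gt.FourFrechetUrysohn

open Classical Filter Topology Set
open Pool.Agent.K4H31

universe u

/-- `ι : X → G` is the free topological group of `X` in the sense of Markov: `G` is a Hausdorff
topological group, `ι` is a topological embedding, `G` is (algebraically) the free group with basis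
`ι x`, `x ∈ X`, and every continuous map of `X` to a Hausdorff topological group extends to a unique
continuous homomorphism. -/
structure IsMarkovFree {X G : Type u} [TopologicalSpace X] [Group G] [TopologicalSpace G]
    (ι : X → G) : Prop where
  isTopologicalGroup : IsTopologicalGroup G
  t2Space : T2Space G
  isEmbedding : IsEmbedding ι
  free : Function.Bijective (FreeGroup.lift ι)
  extend : ∀ (H : Type u) [Group H] [TopologicalSpace H] [IsTopologicalGroup H] [T2Space H]
    (f : X → H), Continuous f → ∃! φ : G →* H, Continuous φ ∧ ∀ x, φ (ι x) = f x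

/-- `F_n(X)`: the elements of `G` whose reduced form has length at most `n`. A letter `(x, true)`
stands for `x` and `(x, false)` for `x⁻¹`. -/
def FreeLE {X G : Type u} [Group G] (ι : X → G) (n : ℕ) : Set G :=
  {g | ∃ L : List (X × Bool), FreeGroup.IsReduced L ∧ L.length ≤ n ∧
    (L.map fun p => if p.2 then ι p.1 else (ι p.1)⁻¹).prod = g}

/-- `k_R`-spaces. -/
def IsKR (Y : Type u) [TopologicalSpace Y] : Prop :=
  ∀ f : Y → ℝ, (∀ K : Set Y, IsCompact K → ContinuousOn f K) → Continuous f

theorem ev_eq' {X G : Type u} [Group G] (ι : X → G) (L : List (X × Bool)) :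
    (L.map fun p => if p.2 then ι p.1 else (ι p.1)⁻¹).prod = FTG.ev ι L := by
  unfold FTG.ev
  congr 2
  funext p
  cases p.2 <;> simp [FTG.let']

theorem isKR_of_frechet (Y : Type u) [TopologicalSpace Y] [FrechetUrysohnSpace Y] : IsKR Y := by
  intro f hf
  rw [continuous_iff_seqContinuous]
  intro x p hx
  have hK := hx.isCompact_insert_range
  have hc := hf _ hK p (mem_insert _ _)
  have : Tendsto x atTop (𝓝[insert p (range x)] p) :=
    tendsto_nhdsWithin_iff.2 ⟨hx, Eventually.of_forall fun n => mem_insert_of_mem _ ⟨n, rfl⟩⟩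
  exact hc.tendsto.comp this

theorem frechet {X G : Type u} [MetricSpace X] [Group G] [TopologicalSpace G] {ι : X → G}
    (hC : IsCompact {x : X | ¬ IsOpen ({x} : Set X)}) (hG : IsMarkovFree ι) :
    FrechetUrysohnSpace (FreeLE ι 4) := by
  have _ := hG.isTopologicalGroup
  have hG' : FTG.IsFreeTopologicalGroup ι :=
    ⟨hG.isTopologicalGroup, hG.t2Space, hG.isEmbedding, hG.free, hG.extend⟩
  refine ⟨fun s g hg => ?_⟩
  obtain ⟨g, u, hur, hul, hug⟩ := g
  set A : Set (List (X × Bool)) := {L | FreeGroup.IsReduced L ∧ L.length ≤ 4 ∧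
    ∃ h : FTG.ev ι L ∈ FreeLE ι 4, (⟨FTG.ev ι L, h⟩ : FreeLE ι 4) ∈ s} with hAdef
  have hA : ∀ W ∈ A, FreeGroup.IsReduced W ∧ W.length ≤ 4 := fun W hW => ⟨hW.1, hW.2.1⟩
  have himage : FTG.ev ι '' A = Subtype.val '' s := by
    ext h
    constructor
    · rintro ⟨L, ⟨-, -, h1, h2⟩, rfl⟩
      exact ⟨_, h2, rfl⟩
    · rintro ⟨⟨h, L, h1, h2, h3⟩, h4, rfl⟩
      rw [ev_eq'] at h3
      subst h3
      exact ⟨L, ⟨h1, h2, ⟨L, h1, h2, ev_eq' ι L⟩, h4⟩, rfl⟩
  have hcl : FTG.ev ι u ∈ closure (FTG.ev ι '' A) := by
    rw [himage, ← ev_eq', hug]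
    exact closure_subtype.1 hg
  have hseq : ∃ w : ℕ → List (X × Bool), (∀ n, w n ∈ A) ∧
      Tendsto (fun n => FTG.ev ι (w n)) atTop (𝓝 (FTG.ev ι u)) := by
    by_cases hu : u = []
    · subst hu
      exact FTG.seq_one hG' hC A hA hcl
    · exact FTG.seq_of_ne hG' hC A hA u hur hu hcl
  obtain ⟨w, hw, hlim⟩ := hseq
  choose h1 h2 using fun n => (hw n).2.2
  refine ⟨fun n => ⟨FTG.ev ι (w n), h1 n⟩, h2, ?_⟩
  rw [tendsto_subtype_rng]
  rw [← ev_eq' ι u, hug] at hlim
  exact hlim

/-- The scale given by the metric alone. -/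
noncomputable def scale0 (X : Type u) [MetricSpace X] : FTG.Scale X where
  r _ _ := True
  equiv := ⟨fun _ => trivial, fun _ => trivial, fun _ _ => trivial⟩
  κ _ := 1
  one_le _ := le_rfl
  κ_eq _ _ _ := rfl
  D := dist
  D_self := dist_self
  D_nonneg _ _ := dist_nonneg
  D_comm := dist_comm
  D_tri := dist_triangle

/-- The free topological group exists. -/
theorem exists_free (X : Type u) [MetricSpace X] :
    ∃ (G : Type u) (_ : Group G) (_ : TopologicalSpace G) (ι : X → G), IsMarkovFree ι := by
  let T : GroupTopology (FreeGroup X) := GroupTopology.coinduced (FreeGroup.of : X → FreeGroup X)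
  have hle : ∀ b : GroupTopology (FreeGroup X),
      @Continuous _ _ _ b.toTopologicalSpace (FreeGroup.of : X → FreeGroup X) →
      T.toTopologicalSpace ≤ b.toTopologicalSpace := by
    intro b hb
    have : T ≤ b := sInf_le (continuous_iff_coinduced_le.1 hb)
    exact this
  have hcont : @Continuous _ _ _ T.toTopologicalSpace (FreeGroup.of : X → FreeGroup X) :=
    GroupTopology.coinduced_continuous _
  let B0 : GroupTopology (FreeGroup X) :=
    ⟨(FTG.basis (FTG.scale 0 (fun _ : X => 0))).topology,
      (FTG.basis (FTG.scale 0 (fun _ : X => 0))).isTopologicalGroup⟩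
  have hB0 : T.toTopologicalSpace ≤ B0.toTopologicalSpace :=
    hle B0 (FTG.continuous_of _ (FTG.scale_nhds 0 _))
  let B1 : GroupTopology (FreeGroup X) :=
    ⟨(FTG.basis (scale0 X)).topology, (FTG.basis (scale0 X)).isTopologicalGroup⟩
  have hcont1 : @Continuous _ _ _ B1.toTopologicalSpace (FreeGroup.of : X → FreeGroup X) := by
    refine FTG.continuous_of _ (fun x ε hε => ?_)
    filter_upwards [Metric.ball_mem_nhds x hε] with y hy
    exact ⟨trivial, by rw [Metric.mem_ball, dist_comm] at hy; exact hy⟩
  have hB1 : T.toTopologicalSpace ≤ B1.toTopologicalSpace := hle B1 hcont1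
  let _ : TopologicalSpace (FreeGroup X) := T.toTopologicalSpace
  have _ : IsTopologicalGroup (FreeGroup X) := T.toIsTopologicalGroup
  refine ⟨FreeGroup X, inferInstance, T.toTopologicalSpace, FreeGroup.of, ?_, ?_, ?_, ?_, ?_⟩
  · exact T.toIsTopologicalGroup
  · have h2 : @T2Space _ B0.toTopologicalSpace := FTG.scale_t2 0 _
    exact @T2Space.of_injective_continuous (FreeGroup X) (FreeGroup X) T.toTopologicalSpace
      B0.toTopologicalSpace h2 id Function.injective_id (continuous_id_iff_le.2 hB0)
  · refine ⟨isInducing_iff_nhds.2 fun x => ?_, FreeGroup.of_injective⟩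
    refine le_antisymm (hcont.tendsto x).le_comap ?_
    rw [Metric.nhds_basis_ball.ge_iff]
    intro ε hε
    have h1 : FTG.ball (scale0 X) ε ∈ 𝓝 (1 : FreeGroup X) :=
      nhds_mono hB1 (FTG.ball_mem_nhds (scale0 X) hε)
    have h2 : Continuous fun g : FreeGroup X => (FreeGroup.of x)⁻¹ * g := continuous_const_mul _
    have h3 : (fun g : FreeGroup X => (FreeGroup.of x)⁻¹ * g) ⁻¹' FTG.ball (scale0 X) ε ∈
        𝓝 (FreeGroup.of x) := by
      refine h2.continuousAt.preimage_mem_nhds ?_
      rw [inv_mul_cancel]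
      exact h1
    refine ⟨_, h3, ?_⟩
    intro y hy
    simp only [mem_preimage] at hy
    unfold FreeGroup.of at hy
    rw [FreeGroup.inv_mk, FreeGroup.mul_mk, FTG.mem_ball_mk] at hy
    obtain ⟨c, hc, hn⟩ := hy
    have hn' : FTG.Near (scale0 X) c ((x, false) :: [(y, true)]) := by
      simpa [FreeGroup.invRev] using hn
    obtain ⟨c₁, c₂, y', w, w', e, -, n1, n2, hD⟩ := hn'.inv
    have m1 := n1.nonneg
    have m2 := n2.nonneg
    rcases w with _ | ⟨a, w⟩
    · simp only [List.nil_append, List.cons.injEq, Prod.mk.injEq] at e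
      obtain ⟨⟨rfl, -⟩, -⟩ := e
      have hD' : dist x y + 1 * c₁ + c₂ ≤ c := hD
      rw [Metric.mem_ball, dist_comm]
      linarith
    · simp at e
  · have : FreeGroup.lift (FreeGroup.of : X → FreeGroup X) = MonoidHom.id _ := by
      ext x; simp
    rw [this]
    exact Function.bijective_id
  · intro H _ _ _ _ f hf
    let Tf : GroupTopology (FreeGroup X) :=
      ⟨TopologicalSpace.induced (FreeGroup.lift f) inferInstance, topologicalGroup_induced _⟩
    have hTf : T.toTopologicalSpace ≤ Tf.toTopologicalSpace := by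
      refine hle Tf ?_
      rw [continuous_induced_rng]
      have : (FreeGroup.lift f : FreeGroup X → H) ∘ FreeGroup.of = f := by
        funext x; simp
      rw [this]
      exact hf
    refine ⟨FreeGroup.lift f, ⟨continuous_iff_le_induced.2 hTf, fun x => by simp⟩, ?_⟩
    rintro ψ ⟨-, hψ⟩
    ext x
    simp [hψ]

/-- **Main theorem.** Let `X` be a metrizable space whose set of non-isolated points is compact.
The free topological group of `X` exists, and for each free topological group `ι : X → G` the
subspace `F_4(X)` of `G` is a Fréchet-Urysohn space and a `k_R`-space. -/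
theorem result (X : Type u) [TopologicalSpace X] [TopologicalSpace.MetrizableSpace X]
    (hX : IsCompact {x : X | ¬ IsOpen ({x} : Set X)}) :
    (∃ (G : Type u) (_ : Group G) (_ : TopologicalSpace G) (ι : X → G), IsMarkovFree ι) ∧
    ∀ (G : Type u) [Group G] [TopologicalSpace G] (ι : X → G), IsMarkovFree ι →
      FrechetUrysohnSpace (FreeLE ι 4) ∧ IsKR (FreeLE ι 4) := by
  let _ : MetricSpace X := TopologicalSpace.metrizableSpaceMetric X
  refine ⟨exists_free X, fun G _ _ ι hG => ?_⟩
  have h := frechet hX hG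
  exact ⟨h, isKR_of_frechet _⟩

end Pool.Agent.Results.MP_b47bfe_gt.FourFrechetUrysohn
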